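import Pool.Agent.Helper35.MN.Flags

/-!
Two flags with 2 and 3 steps: a common adapted basis (MN stage 4).
-/

set_option autoImplicit false

namespace Pool.Agent.Helper76.HV

open Finset Module Pool.Agent.Helper35.MN

theorem adapted23 {F V : Type} [Field F] [AddCommGroup V] [Module F V] [FiniteDimensional F V]
    (P Q' P' : Submodule F V) (hPQ : P' ≤ Q') :
    ∃ (e : Fin (finrank F V) → V) (i : Fin (finrank F V) → Fin 2) (j : Fin (finrank F V) → Fin 3),
      (∀ k, i k = 1 → e k ∈ P) ∧ (∀ k, j k = 1 → e k ∈ Q') ∧ (∀ k, j k = 2 → e k ∈ P') ∧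
      Submodule.span F (Set.range e) = ⊤ ∧
      ∑ k, ((i k : ℕ)) = finrank F P ∧ ∑ k, ((j k : ℕ)) = finrank F Q' + finrank F P' := by
  classical
  let A : ℕ → Submodule F V := fun m => if m = 0 then ⊤ else if m = 1 then P else ⊥
  let B : ℕ → Submodule F V := fun m =>
    if m = 0 then ⊤ else if m = 1 then Q' else if m = 2 then P' else ⊥
  have hA : Antitone A := by
    apply antitone_nat_of_succ_le
    intro m
    rcases m with _ | _ | m
    · exact le_top
    · exact bot_le
    · exact le_rfl
  have hB : Antitone B := by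
    apply antitone_nat_of_succ_le
    intro m
    rcases m with _ | _ | _ | m
    · exact le_top
    · exact hPQ
    · exact bot_le
    · exact le_rfl
  obtain ⟨e, l, r, he, hl, hr, hcl, hcr⟩ := two_flags (finrank F V) V rfl 3 A B hA hB rfl rfl
    rfl rfl
  have hle : ∀ (f : Fin (finrank F V) → ℕ) (M : ℕ),
      (0 = ∑ k, if M + 1 ≤ f k then 1 else 0) → ∀ k, f k ≤ M := by
    intro f M hf k
    by_contra hc
    have h1 := (Finset.sum_eq_zero_iff_of_nonneg (fun i _ => Nat.zero_le _)).1 hf.symm k
      (Finset.mem_univ k)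
    rw [if_pos (by omega)] at h1
    exact one_ne_zero h1
  have hl1 : ∀ k, l k ≤ 1 := hle l 1 (by
    rw [← hcl]; show 0 = finrank F (⊥ : Submodule F V); rw [finrank_bot])
  have hr2 : ∀ k, r k ≤ 2 := hle r 2 (by
    rw [← hcr]; show 0 = finrank F (⊥ : Submodule F V); rw [finrank_bot])
  have hA1 : finrank F P = ∑ k, if 1 ≤ l k then 1 else 0 := hcl 1
  have hB1 : finrank F Q' = ∑ k, if 1 ≤ r k then 1 else 0 := hcr 1
  have hB2 : finrank F P' = ∑ k, if 2 ≤ r k then 1 else 0 := hcr 2
  refine ⟨e, fun k => ⟨l k, by have := hl1 k; omega⟩, fun k => ⟨r k, by have := hr2 k; omega⟩,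
    ?_, ?_, ?_, he, ?_, ?_⟩
  · intro k hk
    have h1 : l k = 1 := congrArg Fin.val hk
    have h2 := hl k
    rw [h1] at h2
    exact h2
  · intro k hk
    have h1 : r k = 1 := congrArg Fin.val hk
    have h2 := hr k
    rw [h1] at h2
    exact h2
  · intro k hk
    have h1 : r k = 2 := congrArg Fin.val hk
    have h2 := hr k
    rw [h1] at h2
    exact h2
  · rw [hA1]
    refine Finset.sum_congr rfl fun k _ => ?_
    have := hl1 k
    show l k = _
    split_ifs <;> omega
  · rw [hB1, hB2, ← Finset.sum_add_distrib]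
    refine Finset.sum_congr rfl fun k _ => ?_
    have := hr2 k
    show r k = _
    split_ifs <;> omega

end Pool.Agent.Helper76.HV
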