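import Mathlib

/-!
Numbers for MN stage 4 (powers of the Jacobson radical).
-/

set_option autoImplicit false

namespace Pool.Agent.Helper76.HV

open Finset

theorem exp_neg_le' {x : ℝ} (hx : |x| ≤ 1) : Real.exp (-x) ≤ 1 - x + x ^ 2 := by
  have h := Real.abs_exp_sub_one_sub_id_le (x := -x) (by rwa [abs_neg])
  have h2 := (abs_le.1 h).2
  nlinarith

/-- the weight of a type with left degree `l` and right degree `r` -/
noncomputable def wJ (l : Fin 2) (r : Fin 3) : ℝ := (l : ℕ) + ((r : ℕ) : ℝ) / 2 - 1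

theorem wJ_sq (l : Fin 2) (r : Fin 3) : wJ l r ^ 2 ≤ (l : ℕ) + 1 - ((r : ℕ) : ℝ) / 2 := by
  unfold wJ
  fin_cases l <;> fin_cases r <;> norm_num

theorem abs_wJ (l : Fin 2) (r : Fin 3) : |wJ l r| ≤ 1 := by
  unfold wJ
  fin_cases l <;> fin_cases r <;> norm_num [abs_le]

/-- the sum of `exp (- λ w)` over an adapted basis -/
theorem sum_exp_le {I : Type*} [Fintype I] (l : I → Fin 2) (r : I → Fin 3) (n a q : ℝ)
    (hn : (Fintype.card I : ℝ) = n) (ha : 0 < a) (hq : 0 ≤ q) (hqa : q ≤ a)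
    (hl : ∑ k, ((l k : ℕ) : ℝ) = a) (hr : ∑ k, ((r k : ℕ) : ℝ) = (n - q) + (n - a)) :
    ∑ k, Real.exp (-((a - q) / (8 * a) * wJ (l k) (r k))) ≤ n - (a - q) ^ 2 / (32 * a) := by
  set c : ℝ := (a - q) / (8 * a) with hc
  have hc0 : 0 ≤ c := by rw [hc]; apply div_nonneg <;> linarith
  have hc1 : c ≤ 1 := by
    rw [hc, div_le_one (by linarith)]; linarith
  have h1 : ∀ k, Real.exp (-(c * wJ (l k) (r k))) ≤
      1 - c * wJ (l k) (r k) + c ^ 2 * ((l k : ℕ) + 1 - ((r k : ℕ) : ℝ) / 2) := by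
    intro k
    have hx : |c * wJ (l k) (r k)| ≤ 1 := by
      rw [abs_mul, abs_of_nonneg hc0]
      exact mul_le_one₀ hc1 (abs_nonneg _) (abs_wJ _ _)
    refine (exp_neg_le' hx).trans ?_
    rw [mul_pow]
    have := mul_le_mul_of_nonneg_left (wJ_sq (l k) (r k)) (sq_nonneg c)
    linarith
  have h2 : ∑ k, (1 - c * wJ (l k) (r k) + c ^ 2 * (((l k : ℕ) : ℝ) + 1 - ((r k : ℕ) : ℝ) / 2)) =
      n - c * (a + ((n - q) + (n - a)) / 2 - n) + c ^ 2 * (a + n - ((n - q) + (n - a)) / 2) := by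
    unfold wJ
    rw [sum_add_distrib, sum_sub_distrib, ← mul_sum, ← mul_sum, sum_sub_distrib, sum_sub_distrib,
      sum_add_distrib, sum_add_distrib, ← sum_div, hl, hr]
    simp only [sum_const, card_univ, nsmul_eq_mul, mul_one, hn]
  calc _ ≤ ∑ k, (1 - c * wJ (l k) (r k) + c ^ 2 * (((l k : ℕ) : ℝ) + 1 - ((r k : ℕ) : ℝ) / 2)) :=
        sum_le_sum fun k _ => h1 k
    _ = n - c * ((a - q) / 2) + c ^ 2 * ((3 * a + q) / 2) := by rw [h2]; ring
    _ ≤ n - c * ((a - q) / 2) + c ^ 2 * (2 * a) := by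
        have : c ^ 2 * ((3 * a + q) / 2) ≤ c ^ 2 * (2 * a) :=
          mul_le_mul_of_nonneg_left (by linarith) (sq_nonneg c)
        linarith
    _ = n - (a - q) ^ 2 / (32 * a) := by
        rw [hc]; field_simp; ring

/-- among `k` steps of a decreasing sequence ending in `0` one is large -/
theorem exists_step (k : ℕ) (hk : 0 < k) (q : ℕ → ℝ) (hq : Antitone q) (h0 : ∀ j, 0 ≤ q j)
    (hqk : q k = 0) (hq0 : 0 < q 0) :
    ∃ j < k, 0 < q j ∧ q 0 / (k : ℝ) ^ 2 ≤ (q j - q (j + 1)) ^ 2 / q j := by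
  have hkr : (0 : ℝ) < k := by exact_mod_cast hk
  have htel : ∑ j ∈ range k, (√(q j) - √(q (j + 1))) = √(q 0) := by
    rw [Finset.sum_range_sub', hqk, Real.sqrt_zero, sub_zero]
  obtain ⟨j, hj, hj'⟩ : ∃ j ∈ range k, √(q 0) / k ≤ √(q j) - √(q (j + 1)) := by
    apply Finset.exists_le_of_sum_le (by simpa using hk.ne')
    rw [htel, sum_const, card_range, nsmul_eq_mul]
    exact (mul_div_cancel₀ _ hkr.ne').le
  have hs0 : 0 < √(q 0) := Real.sqrt_pos.2 hq0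
  have hpos : 0 < √(q 0) / k := by positivity
  have hsj : 0 < √(q j) := by
    have := Real.sqrt_nonneg (q (j + 1)); linarith
  have hqj : 0 < q j := Real.sqrt_pos.1 hsj
  refine ⟨j, mem_range.1 hj, hqj, ?_⟩
  have h1 : √(q j) ^ 2 = q j := Real.sq_sqrt (h0 j)
  have h2 : √(q (j + 1)) ^ 2 = q (j + 1) := Real.sq_sqrt (h0 _)
  have h3 : √(q 0) ^ 2 = q 0 := Real.sq_sqrt (h0 _)
  set s := √(q j)
  set t := √(q (j + 1))
  have ht : 0 ≤ t := Real.sqrt_nonneg _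
  have h4 : (q j - q (j + 1)) ^ 2 / q j = (s - t) ^ 2 * ((s + t) ^ 2 / s ^ 2) := by
    have hs : s ≠ 0 := hsj.ne'
    rw [← h1, ← h2]; field_simp; ring
  rw [h4]
  have h5 : 1 ≤ (s + t) ^ 2 / s ^ 2 := by
    rw [one_le_div (by positivity)]
    nlinarith
  have h6 : q 0 / (k : ℝ) ^ 2 ≤ (s - t) ^ 2 := by
    rw [← h3, ← div_pow]
    exact pow_le_pow_left₀ hpos.le hj' 2
  nlinarith [sq_nonneg (s - t)]

end Pool.Agent.Helper76.HV
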