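import Mathlib

/-!
Powers of the Jacobson radical of a finite dimensional algebra, as subspaces (MN stage 4).
-/

set_option autoImplicit false

namespace Pool.Agent.Helper76.HV

open Module

section

variable (F A : Type*) [Field F] [Ring A] [Algebra F A]

/-- the Jacobson radical as a subspace -/
def JJ : Submodule F A := (Ring.jacobson A).restrictScalars F

end

variable {F A B : Type*} [Field F] [Ring A] [Algebra F A] [Ring B] [Algebra F B]

theorem mem_JJ {x : A} : x ∈ JJ F A ↔ x ∈ Ring.jacobson A := Iff.rfl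

theorem top_mul_JJ : (⊤ : Submodule F A) * JJ F A ≤ JJ F A := by
  rw [Submodule.mul_le]
  intro a _ x hx
  exact (Ring.jacobson A).mul_mem_left a hx

theorem JJ_mul_top : JJ F A * (⊤ : Submodule F A) ≤ JJ F A := by
  rw [Submodule.mul_le]
  intro x hx a _
  exact Ideal.mul_mem_right a (Ring.jacobson A) hx

theorem top_mul_pow {m : ℕ} (hm : 0 < m) : (⊤ : Submodule F A) * JJ F A ^ m ≤ JJ F A ^ m := by
  obtain ⟨m, rfl⟩ := Nat.exists_eq_succ_of_ne_zero hm.ne'
  rw [Nat.succ_eq_add_one, pow_succ', ← mul_assoc]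
  exact mul_le_mul' top_mul_JJ le_rfl

theorem pow_mul_top {m : ℕ} (hm : 0 < m) : JJ F A ^ m * (⊤ : Submodule F A) ≤ JJ F A ^ m := by
  obtain ⟨m, rfl⟩ := Nat.exists_eq_succ_of_ne_zero hm.ne'
  rw [Nat.succ_eq_add_one, pow_succ, mul_assoc]
  exact mul_le_mul' le_rfl JJ_mul_top

theorem mul_mem_pow_left {m : ℕ} (hm : 0 < m) (a : A) {x : A} (hx : x ∈ JJ F A ^ m) :
    a * x ∈ JJ F A ^ m := top_mul_pow hm (Submodule.mul_mem_mul Submodule.mem_top hx)

theorem mul_mem_pow_right {m : ℕ} (hm : 0 < m) (a : A) {x : A} (hx : x ∈ JJ F A ^ m) :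
    x * a ∈ JJ F A ^ m := pow_mul_top hm (Submodule.mul_mem_mul hx Submodule.mem_top)

theorem pow_anti {m n : ℕ} (hm : 0 < m) (h : m ≤ n) : JJ F A ^ n ≤ JJ F A ^ m := by
  obtain ⟨k, rfl⟩ := Nat.exists_eq_add_of_le h
  rw [pow_add]
  exact (mul_le_mul' le_rfl le_top).trans (pow_mul_top hm)

theorem JJ_pow_le (k : ℕ) : JJ F A ^ k ≤ ((Ring.jacobson A) ^ k).restrictScalars F := by
  induction k with
  | zero =>
    intro x _
    have h : (Ring.jacobson A) ^ 0 = ⊤ := by rw [Submodule.pow_zero]; exact Ideal.one_eq_top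
    show x ∈ (Ring.jacobson A) ^ 0
    rw [h]; exact Submodule.mem_top
  | succ k ih =>
    rw [pow_succ', Submodule.mul_le]
    intro x hx y hy
    show x * y ∈ (Ring.jacobson A) ^ (k + 1)
    rw [Ideal.IsTwoSided.pow_succ]
    exact Ideal.mul_mem_mul hx (ih hy)

theorem JJ_nilpotent [FiniteDimensional F A] : ∃ k, JJ F A ^ k = ⊥ := by
  have hArt : IsArtinianRing A := IsArtinianRing.of_finite F A
  obtain ⟨k, hk⟩ := IsSemiprimaryRing.isNilpotent (R := A)
  refine ⟨k, ?_⟩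
  rw [eq_bot_iff]
  intro x hx
  have := JJ_pow_le k hx
  have h2 : x ∈ (Ring.jacobson A) ^ k := this
  rw [hk] at h2
  exact h2

/-- a power of the radical is smaller than the previous one, unless it is `0` -/
theorem pow_lt [FiniteDimensional F A] {m : ℕ} (hm : 0 < m) (h : JJ F A ^ m ≠ ⊥) :
    JJ F A ^ (m + 1) < JJ F A ^ m := by
  refine lt_of_le_of_ne (pow_anti hm (Nat.le_succ m)) fun heq => h ?_
  obtain ⟨k, hk⟩ := JJ_nilpotent (F := F) (A := A)
  have h1 : ∀ j, JJ F A ^ (m + j) = JJ F A ^ m := by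
    intro j
    induction j with
    | zero => rfl
    | succ j ih => rw [← add_assoc, pow_succ, ih, ← pow_succ, heq]
  rw [← h1 k, pow_add, hk, Submodule.mul_bot]

theorem JJ_ne_top [Nontrivial A] : JJ F A ≠ ⊤ := by
  intro h
  have h1 : (1 : A) ∈ JJ F A := by rw [h]; exact Submodule.mem_top
  have h2 := Ring.jacobson_lt_top A
  exact h2.ne ((Ideal.eq_top_iff_one _).2 h1)

theorem finrank_pow_add_le [FiniteDimensional F A] (m : ℕ) (h : JJ F A ^ (m + 1) ≠ ⊥) :
    finrank F ↥(JJ F A ^ (m + 1)) + (m + 1) ≤ finrank F A := by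
  induction m with
  | zero =>
    rw [zero_add, pow_one] at h ⊢
    have hnt : Nontrivial A := by
      by_contra hc
      rw [not_nontrivial_iff_subsingleton] at hc
      exact h (Subsingleton.elim _ _)
    have h1 : JJ F A < ⊤ := lt_top_iff_ne_top.2 JJ_ne_top
    have h2 := Submodule.finrank_lt_finrank_of_lt h1
    rw [finrank_top] at h2
    omega
  | succ m ih =>
    have h0 : JJ F A ^ (m + 1) ≠ ⊥ := by
      intro h0
      exact h (by rw [pow_succ, h0, Submodule.bot_mul])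
    have h1 := Submodule.finrank_lt_finrank_of_lt (pow_lt (Nat.succ_pos m) h0)
    have := ih h0
    simp only [Nat.succ_eq_add_one] at h1
    omega

theorem pow_eq_bot [FiniteDimensional F A] {m : ℕ} (hm : 0 < m) (h : finrank F A ≤ m) :
    JJ F A ^ m = ⊥ := by
  by_contra hc
  obtain ⟨m, rfl⟩ := Nat.exists_eq_succ_of_ne_zero hm.ne'
  have h1 := finrank_pow_add_le m hc
  have h2 : 0 < finrank F ↥(JJ F A ^ (m + 1)) := by
    rw [Nat.pos_iff_ne_zero]
    intro h0
    exact hc (Submodule.finrank_eq_zero.1 h0)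
  simp only [Nat.succ_eq_add_one] at h
  omega

theorem pow_clog_eq_bot [FiniteDimensional F A] :
    JJ F A ^ (2 ^ Nat.clog 2 (finrank F A)) = ⊥ :=
  pow_eq_bot (by positivity) (Nat.le_pow_clog (by norm_num) _)

theorem equiv_mem_JJ (ψ : A ≃ₐ[F] B) (x : A) (hx : x ∈ JJ F A) : ψ x ∈ JJ F B := by
  haveI : RingHomSurjective (ψ : A →+* B) := ⟨ψ.surjective⟩
  exact Ring.le_comap_jacobson (f := (ψ : A →+* B)) hx

theorem map_JJ (φ : A ≃ₐ[F] B) : (JJ F A).map φ.toAlgHom.toLinearMap = JJ F B := by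
  ext y
  constructor
  · rintro ⟨x, hx, rfl⟩
    exact equiv_mem_JJ φ x hx
  · intro hy
    exact ⟨φ.symm y, equiv_mem_JJ φ.symm y hy, φ.apply_symm_apply y⟩

theorem map_pow_JJ (φ : A ≃ₐ[F] B) (m : ℕ) :
    (JJ F A ^ m).map φ.toAlgHom.toLinearMap = JJ F B ^ m := by
  rw [Submodule.map_pow, map_JJ]

theorem mem_pow_iff (φ : A ≃ₐ[F] B) (m : ℕ) (x : A) :
    φ x ∈ JJ F B ^ m ↔ x ∈ JJ F A ^ m := by
  rw [← map_pow_JJ φ m]
  constructor
  · rintro ⟨y, hy, hyx⟩
    have : y = x := φ.injective hyx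
    rwa [← this]
  · intro hx
    exact ⟨x, hx, rfl⟩

theorem finrank_pow_eq (φ : A ≃ₐ[F] B) (m : ℕ) :
    finrank F ↥(JJ F A ^ m) = finrank F ↥(JJ F B ^ m) := by
  rw [← map_pow_JJ φ m]
  exact (LinearEquiv.finrank_eq (φ.toLinearEquiv.submoduleMap (JJ F A ^ m)))

end Pool.Agent.Helper76.HV
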