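import Mathlib

/-!
Numbers for MN-L: few monomials of degree at most a third of the top degree.
-/

namespace Pool.Agent.Helper76.HV

open Finset

theorem exp_neg_le {x : ℝ} (hx : |x| ≤ 1) : Real.exp (-x) ≤ 1 - x + x ^ 2 := by
  have h := Real.abs_exp_sub_one_sub_id_le (x := -x) (by rwa [abs_neg])
  have h2 := (abs_le.1 h).2
  nlinarith

theorem one_factor (p : ℕ) (hp : 2 ≤ p) :
    ∑ i : Fin p, Real.exp (-((1 / 8) * ((i : ℕ) / ((p : ℝ) - 1) - 1 / 3))) ≤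
      p * Real.exp (-(1 / 100)) := by
  have hp1 : (0 : ℝ) < (p : ℝ) - 1 := by
    have : (2 : ℝ) ≤ p := by exact_mod_cast hp
    linarith
  have h1 : ∀ i : Fin p, Real.exp (-((1 / 8) * ((i : ℕ) / ((p : ℝ) - 1) - 1 / 3))) ≤
      1 - (1 / 8) * ((i : ℕ) / ((p : ℝ) - 1) - 1 / 3) + 1 / 144 := by
    intro i
    have hi0 : (0 : ℝ) ≤ (i : ℕ) / ((p : ℝ) - 1) := by positivity
    have hi1 : ((i : ℕ) : ℝ) / ((p : ℝ) - 1) ≤ 1 := by
      rw [div_le_one hp1]
      have : ((i : ℕ) : ℝ) + 1 ≤ p := by exact_mod_cast i.2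
      linarith
    set u := ((i : ℕ) : ℝ) / ((p : ℝ) - 1) with hu
    have hx : |(1 / 8) * (u - 1 / 3)| ≤ 1 := by
      rw [abs_le]; constructor <;> linarith
    refine (exp_neg_le hx).trans ?_
    nlinarith
  have hsum : ∑ i : Fin p, ((i : ℕ) : ℝ) = p * (p - 1) / 2 := by
    have h2 := Finset.sum_range_id_mul_two p
    have h3 : ((∑ i ∈ range p, i : ℕ) : ℝ) * 2 = p * (p - 1) := by
      have : (((∑ i ∈ range p, i) * 2 : ℕ) : ℝ) = ((p * (p - 1) : ℕ) : ℝ) := by exact_mod_cast h2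
      rw [Nat.cast_mul, Nat.cast_mul, Nat.cast_sub (by omega)] at this
      simpa using this
    rw [Nat.cast_sum] at h3
    rw [Fin.sum_univ_eq_sum_range (fun i => (i : ℝ)) p]
    linarith
  have h2 : ∑ i : Fin p, (1 - (1 / 8) * (((i : ℕ) : ℝ) / ((p : ℝ) - 1) - 1 / 3) + 1 / 144) =
      p * (1 - 1 / 48 + 1 / 144) := by
    have e : ∀ i : Fin p, (1 - (1 / 8) * (((i : ℕ) : ℝ) / ((p : ℝ) - 1) - 1 / 3) + 1 / 144) =
        (1 + 1 / 24 + 1 / 144) - (1 / (8 * ((p : ℝ) - 1))) * ((i : ℕ) : ℝ) := by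
      intro i; field_simp; ring
    rw [sum_congr rfl fun i _ => e i, sum_sub_distrib, ← mul_sum, hsum, sum_const, card_univ,
      Fintype.card_fin, nsmul_eq_mul]
    field_simp
    ring
  calc _ ≤ ∑ i : Fin p, (1 - (1 / 8) * (((i : ℕ) : ℝ) / ((p : ℝ) - 1) - 1 / 3) + 1 / 144) :=
        sum_le_sum fun i _ => h1 i
    _ = p * (1 - 1 / 48 + 1 / 144) := h2
    _ ≤ p * Real.exp (-(1 / 100)) := by
        refine mul_le_mul_of_nonneg_left ?_ (Nat.cast_nonneg p)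
        have := Real.add_one_le_exp (-(1 / 100) : ℝ)
        linarith

theorem low_count (p r s : ℕ) (hp : 2 ≤ p) (hs : 3 * s ≤ (p - 1) * r + 3) :
    (((univ : Finset (Fin r → Fin p)).filter (fun a => ∑ i, (a i : ℕ) < s)).card : ℝ) ≤
      (p : ℝ) ^ r * Real.exp (-((r : ℝ) / 100)) := by
  have hp1 : (0 : ℝ) < (p : ℝ) - 1 := by
    have : (2 : ℝ) ≤ p := by exact_mod_cast hp
    linarith
  rw [card_eq_sum_ones, Nat.cast_sum, sum_filter]
  have h1 : ∀ a : Fin r → Fin p, (if ∑ i, (a i : ℕ) < s then ((1 : ℕ) : ℝ) else 0) ≤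
      ∏ i, Real.exp (-((1 / 8) * (((a i : ℕ) : ℝ) / ((p : ℝ) - 1) - 1 / 3))) := by
    intro a
    rw [← Real.exp_sum]
    split_ifs with h
    · rw [Nat.cast_one, Real.one_le_exp_iff, sum_neg_distrib, ← mul_sum, sum_sub_distrib,
        ← sum_div, sum_const, card_univ, Fintype.card_fin, nsmul_eq_mul]
      have h3 : 3 * (∑ i, (a i : ℕ)) ≤ (p - 1) * r := by omega
      have h4 : (3 : ℝ) * (∑ i, ((a i : ℕ) : ℝ)) ≤ ((p : ℝ) - 1) * r := by
        have h5 : ((3 * (∑ i, (a i : ℕ)) : ℕ) : ℝ) ≤ (((p - 1) * r : ℕ) : ℝ) := by exact_mod_cast h3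
        rw [Nat.cast_mul, Nat.cast_mul, Nat.cast_sub (by omega), Nat.cast_sum] at h5
        simpa using h5
      have h6 : (∑ i, ((a i : ℕ) : ℝ)) / ((p : ℝ) - 1) ≤ r * (1 / 3) := by
        rw [div_le_iff₀ hp1]; nlinarith
      nlinarith
    · exact (Real.exp_pos _).le
  calc _ ≤ ∑ a : Fin r → Fin p,
        ∏ i, Real.exp (-((1 / 8) * (((a i : ℕ) : ℝ) / ((p : ℝ) - 1) - 1 / 3))) :=
        sum_le_sum fun a _ => h1 a
    _ = ∏ _i : Fin r, ∑ j : Fin p,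
        Real.exp (-((1 / 8) * (((j : ℕ) : ℝ) / ((p : ℝ) - 1) - 1 / 3))) := by
        rw [prod_univ_sum]
        rfl
    _ ≤ ∏ _i : Fin r, (p * Real.exp (-(1 / 100))) :=
        prod_le_prod (fun _ _ => sum_nonneg fun _ _ => (Real.exp_pos _).le)
          (fun _ _ => one_factor p hp)
    _ = (p : ℝ) ^ r * Real.exp (-((r : ℝ) / 100)) := by
        rw [prod_const, card_univ, Fintype.card_fin, mul_pow, ← Real.exp_nat_mul]
        congr 2
        ring

end Pool.Agent.Helper76.HV
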