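import Mathlib

/-!
Numbers for MN stage 5: sums over an adapted basis from the marginals.
-/

set_option autoImplicit false

namespace Pool.Agent.Helper76.HV

open Finset

/-- the sum of `φ (i x)` from the numbers `f m` of the `x` with `m ≤ i x` -/
theorem marg {I : Type*} [Fintype I] (i : I → ℕ) (k : ℕ) (hi : ∀ x, i x ≤ k) (f : ℕ → ℕ)
    (hf : ∀ m ≤ k, f m = ∑ x, if m ≤ i x then 1 else 0) (φ : ℕ → ℝ) :
    ∑ x, φ (i x) = ∑ l ∈ range k, ((f l : ℝ) - f (l + 1)) * φ l + f k * φ k := by
  classical
  have h1 : ∑ x, φ (i x) = ∑ l ∈ range (k + 1), ((univ.filter (fun x => i x = l)).card : ℝ) * φ l := by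
    rw [← sum_fiberwise_of_maps_to (s := univ) (t := range (k + 1)) (g := i)
      (fun x _ => mem_range.2 (Nat.lt_succ_of_le (hi x)))]
    refine sum_congr rfl fun l _ => ?_
    rw [sum_congr rfl (g := fun _ => φ l) (fun x hx => by rw [(mem_filter.1 hx).2]), sum_const,
      nsmul_eq_mul]
  have hf' : ∀ m ≤ k, f m = (univ.filter (fun x => m ≤ i x)).card := by
    intro m hm
    rw [hf m hm, card_filter]
  have h2 : ∀ l, l < k → ((univ.filter (fun x => i x = l)).card : ℝ) = (f l : ℝ) - f (l + 1) := by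
    intro l hl
    rw [hf' l hl.le, hf' (l + 1) hl, eq_sub_iff_add_eq, ← Nat.cast_add, Nat.cast_inj,
      ← card_union_of_disjoint]
    · congr 1
      ext x
      simp only [mem_union, mem_filter, mem_univ, true_and]
      omega
    · rw [disjoint_filter]
      intro x _ hx
      omega
  have h3 : ((univ.filter (fun x => i x = k)).card : ℝ) = f k := by
    rw [hf' k le_rfl, Nat.cast_inj]
    congr 1
    ext x
    simp only [mem_filter, mem_univ, true_and]
    have := hi x
    omega
  rw [h1, sum_range_succ, h3]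
  congr 1
  exact sum_congr rfl fun l hl => by rw [h2 l (mem_range.1 hl)]

/-- the Cauchy-Schwarz step -/
theorem cs_step {I : Type*} [Fintype I] (s : ℝ) (i l : I → ℝ) :
    ∑ x, Real.exp (-(s * (i x - l x / 2))) ≤
      √((∑ x, Real.exp (-(2 * s * i x))) * ∑ x, Real.exp (s * l x)) := by
  have h : ∀ x, Real.exp (-(s * (i x - l x / 2))) =
      √(Real.exp (-(2 * s * i x))) * √(Real.exp (s * l x)) := by
    intro x
    rw [← Real.sqrt_mul (Real.exp_pos _).le, ← Real.exp_add, ← Real.exp_half]
    congr 1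
    ring
  rw [sum_congr rfl fun x _ => h x, Real.sqrt_mul (sum_nonneg fun x _ => (Real.exp_pos _).le)]
  have h2 := Real.sum_mul_le_sqrt_mul_sqrt univ (fun x => √(Real.exp (-(2 * s * i x))))
    (fun x => √(Real.exp (s * l x)))
  simpa only [Real.sq_sqrt (Real.exp_pos _).le] using h2

end Pool.Agent.Helper76.HV
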