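import Mathlib

/-!
Leaf G of HV-39: Sylow subgroup of a normal subgroup, Frattini argument and the
elements of order dividing p in the centres of the components.
-/

namespace Pool.Agent.Helper76.HV

open Subgroup

/-- the elements of order dividing p in the centre of P meet T -/
def omegaZ {G : Type*} [Group G] (p : ℕ) (Q : Subgroup G) : Subgroup G where
  carrier := {x | x ∈ Q ∧ (∀ y ∈ Q, x * y = y * x) ∧ x ^ p = 1}
  one_mem' := ⟨one_mem _, fun y _ => by simp, one_pow _⟩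
  mul_mem' := by
    rintro a b ⟨ha, ha', hap⟩ ⟨hb, hb', hbp⟩
    refine ⟨mul_mem ha hb, fun y hy => ?_, ?_⟩
    · rw [mul_assoc, hb' y hy, ← mul_assoc, ha' y hy, mul_assoc]
    · have : Commute a b := ha' b hb
      rw [this.mul_pow, hap, hbp, one_mul]
  inv_mem' := by
    rintro a ⟨ha, ha', hap⟩
    refine ⟨inv_mem ha, fun y hy => ?_, by rw [inv_pow, hap, inv_one]⟩
    have : Commute a y := ha' y hy
    exact this.inv_left

theorem mem_omegaZ {G : Type*} [Group G] {p : ℕ} {Q : Subgroup G} {x : G} :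
    x ∈ omegaZ p Q ↔ x ∈ Q ∧ (∀ y ∈ Q, x * y = y * x) ∧ x ^ p = 1 := Iff.rfl

/-- conjugation carries omegaZ of Q to omegaZ of the conjugate -/
theorem omegaZ_conj {G : Type*} [Group G] {p : ℕ} {Q Q' : Subgroup G} {g : G}
    (h : ∀ x, x ∈ Q ↔ g * x * g⁻¹ ∈ Q') (x : G) :
    x ∈ omegaZ p Q ↔ g * x * g⁻¹ ∈ omegaZ p Q' := by
  have hp : (g * x * g⁻¹) ^ p = 1 ↔ x ^ p = 1 := by
    rw [conj_pow, conj_eq_one_iff]
  rw [mem_omegaZ, mem_omegaZ, hp, ← h x]
  refine and_congr_right fun hx => and_congr_left fun _ => ⟨fun H y hy => ?_, fun H y hy => ?_⟩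
  · have hy' : g⁻¹ * y * g ∈ Q := by
      rw [h]; simpa [mul_assoc] using hy
    have := H _ hy'
    calc g * x * g⁻¹ * y = g * (x * (g⁻¹ * y * g)) * g⁻¹ := by group
      _ = g * ((g⁻¹ * y * g) * x) * g⁻¹ := by rw [this]
      _ = y * (g * x * g⁻¹) := by group
  · have := H _ ((h y).1 hy)
    have h2 : g * (x * y) * g⁻¹ = g * (y * x) * g⁻¹ := by
      calc g * (x * y) * g⁻¹ = (g * x * g⁻¹) * (g * y * g⁻¹) := by group
        _ = (g * y * g⁻¹) * (g * x * g⁻¹) := this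
        _ = g * (y * x) * g⁻¹ := by group
    simpa using h2

/-- a nontrivial finite p-group has a nontrivial element of order p in its centre -/
theorem omegaZ_ne_bot {G : Type*} [Group G] [Finite G] {p : ℕ} [Fact p.Prime]
    {Q : Subgroup G} (hQ : IsPGroup p Q) (h : Q ≠ ⊥) : omegaZ p Q ≠ ⊥ := by
  have : Nontrivial Q := (Subgroup.nontrivial_iff_ne_bot Q).2 h
  have : Nontrivial (Subgroup.center Q) := hQ.center_nontrivial
  have hc : IsPGroup p (Subgroup.center Q) := hQ.to_subgroup _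
  obtain ⟨n, hn, hcard⟩ := hc.nontrivial_iff_card.1 this
  have hdvd : p ∣ Nat.card (Subgroup.center Q) := by
    rw [hcard]; exact dvd_pow_self p hn.ne'
  obtain ⟨z, hz⟩ := exists_prime_orderOf_dvd_card' (G := Subgroup.center Q) p hdvd
  intro hbot
  have hz1 : (((z : Q) : G)) ∈ omegaZ p Q := by
    refine ⟨(z : Q).2, fun y hy => ?_, ?_⟩
    · have h2 := (Subgroup.mem_center_iff.1 z.2) ⟨y, hy⟩
      have := congrArg (Subtype.val) h2
      simpa using this.symm
    · have h2 : z ^ p = 1 := by rw [← hz]; exact pow_orderOf_eq_one z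
      have h3 := congrArg (fun u : Subgroup.center Q => (((u : Q) : G))) h2
      simpa using h3
  rw [hbot, Subgroup.mem_bot] at hz1
  have hz2 : z = 1 := by
    ext; simpa using hz1
  rw [hz2, orderOf_one] at hz
  exact (Fact.out : p.Prime).one_lt.ne hz

/-- Leaf G: the subgroups K and H_t -/
theorem exists_local {G : Type*} [Group G] [Finite G] (N : Subgroup G) [N.Normal]
    {ι : Type*} (T : ι → Subgroup G) (hTN : ∀ t, T t ≤ N)
    (hTn : ∀ t, ∀ n ∈ N, ∀ x ∈ T t, n * x * n⁻¹ ∈ T t) (p : ℕ) [Fact p.Prime] :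
    ∃ (K : Subgroup G) (H : ι → Subgroup G),
      (∀ g : G, ∃ n ∈ N, ∃ k ∈ K, g = n * k) ∧
      (∀ t, H t ≤ T t) ∧
      (∀ t, p ∣ Nat.card (T t) → H t ≠ ⊥) ∧
      (∀ t, ∀ x ∈ H t, x ^ p = 1) ∧
      (∀ t, ∀ x ∈ H t, ∀ y ∈ H t, x * y = y * x) ∧
      (∀ k ∈ K, ∀ s t, (∀ x, x ∈ T s ↔ k * x * k⁻¹ ∈ T t) →
        ∀ x, x ∈ H s ↔ k * x * k⁻¹ ∈ H t) := by
  classical
  have : Finite (Sylow p N) := inferInstance
  obtain ⟨P⟩ : Nonempty (Sylow p N) := inferInstance
  set PG : Subgroup G := (P : Subgroup N).map N.subtype with hPG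
  have hPp : IsPGroup p PG := P.2.map N.subtype
  refine ⟨Subgroup.normalizer PG, fun t => omegaZ p (PG ⊓ T t), ?_, ?_, ?_, ?_, ?_, ?_⟩
  · intro g
    have h1 : g ∈ N ⊔ Subgroup.normalizer (PG : Set G) := by
      rw [sup_comm, hPG, Sylow.normalizer_sup_eq_top P]; exact Subgroup.mem_top g
    rw [← SetLike.mem_coe, Subgroup.normal_mul] at h1
    obtain ⟨n, hn, k, hk, rfl⟩ := Set.mem_mul.1 h1
    exact ⟨n, hn, k, hk, rfl⟩
  · intro t x hx
    exact (mem_omegaZ.1 hx).1.2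
  · intro t ht
    refine omegaZ_ne_bot (hPp.to_le inf_le_left) ?_
    obtain ⟨x, hx⟩ := exists_prime_orderOf_dvd_card' (G := T t) p ht
    have hxN : (x : G) ∈ N := hTN t x.2
    let x' : N := ⟨x, hxN⟩
    have hx' : orderOf x' = p := by
      rw [← hx, ← Subgroup.orderOf_coe x, ← Subgroup.orderOf_coe x']
    have hz : IsPGroup p (Subgroup.zpowers x') := by
      apply IsPGroup.of_card (n := 1)
      rw [Nat.card_zpowers, hx', pow_one]
    obtain ⟨Q, hQ⟩ := hz.exists_le_sylow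
    obtain ⟨n, hn⟩ := MulAction.exists_smul_eq N Q P
    have hxQ : x' ∈ Q := hQ (Subgroup.mem_zpowers x')
    have hnP : n * x' * n⁻¹ ∈ P := by
      have h3 := Subgroup.smul_mem_pointwise_smul x' (MulAut.conj n) (Q : Subgroup N) hxQ
      rw [← hn, ← SetLike.mem_coe, ← Sylow.coe_coe, SetLike.mem_coe]
      rw [Sylow.smul_def, Sylow.pointwise_smul_def]
      simpa using h3
    intro hbot
    have hy : (n : G) * x * (n : G)⁻¹ ∈ PG ⊓ T t :=
      ⟨⟨n * x' * n⁻¹, hnP, rfl⟩, hTn t n n.2 x x.2⟩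
    rw [hbot, Subgroup.mem_bot, conj_eq_one_iff] at hy
    have : x = 1 := by ext; simpa using hy
    rw [this, orderOf_one] at hx
    exact (Fact.out : p.Prime).one_lt.ne hx
  · intro t x hx
    exact (mem_omegaZ.1 hx).2.2
  · intro t x hx y hy
    exact (mem_omegaZ.1 hx).2.1 y (mem_omegaZ.1 hy).1
  · intro k hk s t hst x
    refine omegaZ_conj (g := k) (fun y => ?_) x
    rw [Subgroup.mem_inf, Subgroup.mem_inf, ← hst y]
    have := (Subgroup.mem_normalizer_iff.1 hk) y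
    rw [this]

end Pool.Agent.Helper76.HV
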