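import Mathlib

/-!
Leaf A of HV-39: two filtrations of a finite dimensional space have a common adapted basis.
-/

namespace Pool.Agent.Helper76.HV

open Module

universe u

theorem finrank_map_mkQ {F : Type*} [Field F] {V : Type u} [AddCommGroup V] [Module F V]
    [FiniteDimensional F V] (v : V) (hv : v ≠ 0) (P : Submodule F V) [Decidable (v ∈ P)] :
    finrank F P = (if v ∈ P then 1 else 0)
      + finrank F (P.map (Submodule.span F {v}).mkQ) := by
  classical
  set π := (Submodule.span F {v}).mkQ with hπ
  have h1 := LinearMap.finrank_range_add_finrank_ker (π.domRestrict P)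
  have h2 : LinearMap.range (π.domRestrict P) = P.map π := by
    ext y; simp [LinearMap.domRestrict_apply]
  rw [h2] at h1
  have h3 : finrank F (LinearMap.ker (π.domRestrict P)) = if v ∈ P then 1 else 0 := by
    have hk : ∀ x : P, x ∈ LinearMap.ker (π.domRestrict P) ↔ (x : V) ∈ Submodule.span F {v} := by
      intro x
      rw [LinearMap.mem_ker, LinearMap.domRestrict_apply, hπ, Submodule.mkQ_apply,
        Submodule.Quotient.mk_eq_zero]
    split_ifs with hvP
    · have hs : LinearMap.ker (π.domRestrict P) = Submodule.span F {(⟨v, hvP⟩ : P)} := by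
        ext x
        rw [hk, Submodule.mem_span_singleton, Submodule.mem_span_singleton]
        constructor
        · rintro ⟨a, ha⟩; exact ⟨a, by ext; simpa using ha⟩
        · rintro ⟨a, ha⟩; exact ⟨a, by rw [← ha]; rfl⟩
      rw [hs, finrank_span_singleton]
      intro h0
      exact hv (congrArg Subtype.val h0)
    · have hs : LinearMap.ker (π.domRestrict P) = ⊥ := by
        rw [eq_bot_iff]
        intro x hx
        rw [hk, Submodule.mem_span_singleton] at hx
        obtain ⟨a, ha⟩ := hx
        rw [Submodule.mem_bot]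
        by_cases ha0 : a = 0
        · ext; simp [← ha, ha0]
        · exfalso
          apply hvP
          have : v = a⁻¹ • (x : V) := by rw [← ha, smul_smul, inv_mul_cancel₀ ha0, one_smul]
          rw [this]
          exact P.smul_mem _ x.2
      rw [hs, finrank_bot]
  rw [h3] at h1
  omega

/-- two filtrations have a common adapted basis -/
theorem two_flags {F : Type*} [Field F] : ∀ (n : ℕ) (V : Type u) [AddCommGroup V] [Module F V]
    [FiniteDimensional F V], finrank F V = n → ∀ (M : ℕ) (L R : ℕ → Submodule F V),
    Antitone L → Antitone R → L 0 = ⊤ → R 0 = ⊤ → L M = ⊥ → R M = ⊥ →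
    ∃ (b : Fin n → V) (l r : Fin n → ℕ), Submodule.span F (Set.range b) = ⊤ ∧
      (∀ i, b i ∈ L (l i)) ∧ (∀ i, b i ∈ R (r i)) ∧
      (∀ m, finrank F (L m) = ∑ i, if m ≤ l i then 1 else 0) ∧
      (∀ m, finrank F (R m) = ∑ i, if m ≤ r i then 1 else 0) := by
  intro n
  induction n with
  | zero =>
    intro V _ _ _ hV M L R _ _ _ _ _ _
    have hsub : Subsingleton V := finrank_zero_iff.1 hV
    refine ⟨Fin.elim0, Fin.elim0, Fin.elim0, ?_, fun i => i.elim0, fun i => i.elim0, ?_, ?_⟩
    · exact Subsingleton.elim _ _
    · intro m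
      have : L m = ⊥ := Subsingleton.elim _ _
      simp [this]
    · intro m
      have : R m = ⊥ := Subsingleton.elim _ _
      simp [this]
  | succ n ih =>
    intro V _ _ _ hV M L R hL hR hL0 hR0 hLM hRM
    classical
    have hnt : Nontrivial V := by
      apply Module.nontrivial_of_finrank_pos (R := F); omega
    have hbt : (⊤ : Submodule F V) ≠ ⊥ := top_ne_bot
    obtain ⟨i, hi, hi'⟩ : ∃ i, L i ≠ ⊥ ∧ ∀ m, i < m → L m = ⊥ := by
      refine ⟨Nat.findGreatest (fun m => L m ≠ ⊥) M, ?_, ?_⟩
      · exact Nat.findGreatest_spec (P := fun m => L m ≠ ⊥) (Nat.zero_le M) (by rw [hL0]; exact hbt)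
      · intro m hm
        by_cases hmM : m ≤ M
        · have := Nat.findGreatest_is_greatest hm hmM
          exact not_not.1 this
        · have := hL (le_of_not_ge hmM)
          rw [hLM] at this
          exact le_bot_iff.1 this
    obtain ⟨j, hj, hj'⟩ : ∃ j, L i ⊓ R j ≠ ⊥ ∧ ∀ m, j < m → L i ⊓ R m = ⊥ := by
      refine ⟨Nat.findGreatest (fun m => L i ⊓ R m ≠ ⊥) M, ?_, ?_⟩
      · exact Nat.findGreatest_spec (P := fun m => L i ⊓ R m ≠ ⊥) (Nat.zero_le M)
          (by rw [hR0, inf_top_eq]; exact hi)
      · intro m hm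
        by_cases hmM : m ≤ M
        · have := Nat.findGreatest_is_greatest hm hmM
          exact not_not.1 this
        · have := hR (le_of_not_ge hmM)
          rw [hRM] at this
          rw [le_bot_iff.1 this, inf_bot_eq]
    obtain ⟨v, hv, hv0⟩ := (Submodule.ne_bot_iff _).1 hj
    have hvL : ∀ m, v ∈ L m ↔ m ≤ i := by
      intro m
      constructor
      · intro h
        by_contra hc
        rw [hi' m (lt_of_not_ge hc)] at h
        exact hv0 ((Submodule.mem_bot F).1 h)
      · intro h; exact hL h hv.1
    have hvR : ∀ m, v ∈ R m ↔ m ≤ j := by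
      intro m
      constructor
      · intro h
        by_contra hc
        have h2 : v ∈ L i ⊓ R m := ⟨hv.1, h⟩
        rw [hj' m (lt_of_not_ge hc)] at h2
        exact hv0 ((Submodule.mem_bot F).1 h2)
      · intro h; exact hR h hv.2
    set π := (Submodule.span F {v}).mkQ with hπ
    have hQ : finrank F (V ⧸ Submodule.span F {v}) = n := by
      have h1 := Submodule.finrank_quotient_add_finrank (Submodule.span F {v})
      rw [finrank_span_singleton hv0, hV] at h1
      omega
    obtain ⟨b, l, r, hb, hbl, hbr, hcl, hcr⟩ := ih (V ⧸ Submodule.span F {v}) hQ M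
      (fun m => (L m).map π) (fun m => (R m).map π)
      (fun a c h => Submodule.map_mono (hL h)) (fun a c h => Submodule.map_mono (hR h))
      (by simp only [hL0, Submodule.map_top]; exact Submodule.range_mkQ _)
      (by simp only [hR0, Submodule.map_top]; exact Submodule.range_mkQ _)
      (by simp only [hLM, Submodule.map_bot]) (by simp only [hRM, Submodule.map_bot])
    have hlift : ∀ k, ∃ x, x ∈ L (l k) ∧ x ∈ R (r k) ∧ π x = b k := by
      intro k
      obtain ⟨a, ha, hab⟩ := hbl k
      obtain ⟨c, hc, hcb⟩ := hbr k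
      by_cases hk : l k ≤ i
      · refine ⟨c, ?_, hc, hcb⟩
        have h1 : π (a - c) = 0 := by rw [map_sub, hab, hcb, sub_self]
        rw [hπ, Submodule.mkQ_apply, Submodule.Quotient.mk_eq_zero,
          Submodule.mem_span_singleton] at h1
        obtain ⟨t, ht⟩ := h1
        have h2 : c = a - t • v := by rw [ht]; abel
        rw [h2]
        exact Submodule.sub_mem _ ha (Submodule.smul_mem _ _ ((hvL _).2 hk))
      · rw [hi' (l k) (lt_of_not_ge hk)] at ha
        have ha0 : a = 0 := (Submodule.mem_bot F).1 ha
        refine ⟨0, Submodule.zero_mem _, Submodule.zero_mem _, ?_⟩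
        rw [← hab, ha0]
    choose x hxL hxR hxb using hlift
    refine ⟨Fin.cons v x, Fin.cons i l, Fin.cons j r, ?_, ?_, ?_, ?_, ?_⟩
    · rw [eq_top_iff]
      intro y _
      have hy : π y ∈ Submodule.span F (Set.range b) := by rw [hb]; exact Submodule.mem_top
      have hrb : Set.range b = π '' Set.range x := by
        rw [← Set.range_comp]; congr 1; funext k; exact (hxb k).symm
      rw [hrb, ← Submodule.map_span] at hy
      obtain ⟨z, hz, hzy⟩ := hy
      have h1 : π (y - z) = 0 := by rw [map_sub, hzy, sub_self]
      rw [hπ, Submodule.mkQ_apply, Submodule.Quotient.mk_eq_zero,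
        Submodule.mem_span_singleton] at h1
      obtain ⟨t, ht⟩ := h1
      have h2 : y = t • v + z := by rw [ht]; abel
      rw [h2]
      refine Submodule.add_mem _ (Submodule.smul_mem _ _ (Submodule.subset_span ⟨0, rfl⟩)) ?_
      refine Submodule.span_mono ?_ hz
      rintro _ ⟨k, rfl⟩
      exact ⟨k.succ, rfl⟩
    · intro k
      refine Fin.cases ?_ (fun k => ?_) k
      · exact hv.1
      · exact hxL k
    · intro k
      refine Fin.cases ?_ (fun k => ?_) k
      · exact hv.2
      · exact hxR k
    · intro m
      rw [Fin.sum_univ_succ, finrank_map_mkQ v hv0 (L m)]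
      simp only [Fin.cons_zero, Fin.cons_succ]
      rw [← hcl m]
      congr 1
      exact if_congr (hvL m) rfl rfl
    · intro m
      rw [Fin.sum_univ_succ, finrank_map_mkQ v hv0 (R m)]
      simp only [Fin.cons_zero, Fin.cons_succ]
      rw [← hcr m]
      congr 1
      exact if_congr (hvR m) rfl rfl

end Pool.Agent.Helper76.HV
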